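import Pool.Agent.Helper1_QD.Curve

set_option autoImplicit false
set_option linter.unusedSimpArgs false
set_option linter.unusedVariables false

namespace Pool.Agent.Helper1_QD

open MvPolynomial

variable {A B : ℂ}

/-! ### the two branches at infinity -/

/-- `1 + A s⁴ + B s⁶` -/
noncomputable def u1 (A B s : ℂ) : ℂ := 1 + A * s ^ 4 + B * s ^ 6

/-- `(1 + t s²)³ + A s⁴ (1 + t s²) + B s⁶` -/
noncomputable def u2 (A B t s : ℂ) : ℂ := (1 + t * s ^ 2) ^ 3 + A * s ^ 4 * (1 + t * s ^ 2) + B * s ^ 6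

noncomputable def r1 (A B s : ℂ) : ℂ := (u1 A B s) ^ (((2 : ℕ) : ℂ)⁻¹)

noncomputable def r2 (A B t s : ℂ) : ℂ := (u2 A B t s) ^ (((2 : ℕ) : ℂ)⁻¹)

lemma r1_sq (A B s : ℂ) : r1 A B s ^ 2 = u1 A B s := Complex.cpow_nat_inv_pow _ two_ne_zero

lemma r2_sq (A B t s : ℂ) : r2 A B t s ^ 2 = u2 A B t s := Complex.cpow_nat_inv_pow _ two_ne_zero

/-- branch parametrization, `ε = ±1` -/
noncomputable def br (A B t ε s : ℂ) (p : Fin 4 × Fin 3) : ℂ :=
  (![![s, r1 A B s, s ^ 3], ![-s, r1 A B s, -s ^ 3],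
    ![ε * (s + t * s ^ 3), r2 A B t s, ε * s ^ 3],
    ![-(ε * (s + t * s ^ 3)), r2 A B t s, -(ε * s ^ 3)]] : Fin 4 → Fin 3 → ℂ) p.1 p.2

/-- the tangent direction -/
def tv (ε : ℂ) (p : Fin 4 × Fin 3) : ℂ :=
  (![![1, 0, 0], ![-1, 0, 0], ![ε, 0, 0], ![-ε, 0, 0]] : Fin 4 → Fin 3 → ℂ) p.1 p.2

lemma br_zero (A B t ε : ℂ) : br A B t ε 0 = fun p => hc (oo A B p.1) p.2 := by
  have h1 : r1 A B 0 = 1 := by simp [r1, u1]
  have h2 : r2 A B t 0 = 1 := by simp [r2, u2]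
  funext p
  obtain ⟨i, k⟩ := p
  fin_cases i <;> fin_cases k <;> simp [br, hc, oo, h1, h2]

lemma br_scale (A B t : ℂ) {ε s : ℂ} (hε : ε ^ 2 = 1) (hs : s ≠ 0) :
    br A B t ε s = fun p => (![s ^ 3, -s ^ 3, ε * s ^ 3, -(ε * s ^ 3)] : Fin 4 → ℂ) p.1 *
      gen t (s ^ 2)⁻¹ ((s ^ 3)⁻¹ * r1 A B s) (ε * (s ^ 3)⁻¹ * r2 A B t s) p := by
  have hε0 : ε ≠ 0 := by rintro rfl; norm_num at hε
  funext p
  obtain ⟨i, k⟩ := p
  fin_cases i <;> fin_cases k <;> simp [br, gen]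
  · field_simp
  · field_simp
  · field_simp
  · field_simp
  · field_simp
  · field_simp; rw [hε]; ring
  · field_simp
  · field_simp; rw [hε]; ring

lemma eq1 (A B : ℂ) {s : ℂ} (hs : s ≠ 0) :
    ((s ^ 3)⁻¹ * r1 A B s) ^ 2 = ((s ^ 2)⁻¹) ^ 3 + A * (s ^ 2)⁻¹ + B := by
  rw [mul_pow, r1_sq, u1]
  field_simp

lemma eq2 (A B t : ℂ) {ε s : ℂ} (hε : ε ^ 2 = 1) (hs : s ≠ 0) :
    (ε * (s ^ 3)⁻¹ * r2 A B t s) ^ 2 = ((s ^ 2)⁻¹ + t) ^ 3 + A * ((s ^ 2)⁻¹ + t) + B := by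
  rw [mul_pow, mul_pow, r2_sq, u2, hε]
  field_simp

lemma br_vanish {t : ℂ} {F : MvPolynomial (Fin 4 × Fin 3) ℂ} {d : Fin 4 → ℕ}
    (hF : MultiHom F d) (h : ∀ x y w : ℂ, y ^ 2 = x ^ 3 + A * x + B →
      w ^ 2 = (x + t) ^ 3 + A * (x + t) + B → eval (gen t x y w) F = 0)
    {ε s : ℂ} (hε : ε ^ 2 = 1) (hs : s ≠ 0) : eval (br A B t ε s) F = 0 := by
  rw [br_scale A B t hε hs, hF.eval_scale, h _ _ _ (eq1 A B hs) (eq2 A B t hε hs), mul_zero]

lemma hasDerivAt_r1 (A B : ℂ) : HasDerivAt (r1 A B) 0 0 := by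
  have h0 : HasDerivAt (u1 A B) 0 0 := by
    have e1 : HasDerivAt (fun s : ℂ => s ^ 4) (((4 : ℕ) : ℂ) * (0 : ℂ) ^ (4 - 1)) 0 := hasDerivAt_pow 4 0
    have e2 : HasDerivAt (fun s : ℂ => s ^ 6) (((6 : ℕ) : ℂ) * (0 : ℂ) ^ (6 - 1)) 0 := hasDerivAt_pow 6 0
    have e3 := ((e1.const_mul A).const_add 1).add (e2.const_mul B)
    refine HasDerivAt.congr_deriv (f := u1 A B) e3 ?_
    norm_num
  have h1 := HasDerivAt.cpow_const (c := (((2 : ℕ) : ℂ)⁻¹)) h0 (by simp [u1])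
  refine HasDerivAt.congr_deriv (f := r1 A B) h1 ?_
  simp

lemma hasDerivAt_r2 (A B t : ℂ) : HasDerivAt (r2 A B t) 0 0 := by
  have h0 : HasDerivAt (u2 A B t) 0 0 := by
    have e0 : HasDerivAt (fun s : ℂ => s ^ 2) (((2 : ℕ) : ℂ) * (0 : ℂ) ^ (2 - 1)) 0 := hasDerivAt_pow 2 0
    have e1 : HasDerivAt (fun s : ℂ => s ^ 4) (((4 : ℕ) : ℂ) * (0 : ℂ) ^ (4 - 1)) 0 := hasDerivAt_pow 4 0
    have e2 : HasDerivAt (fun s : ℂ => s ^ 6) (((6 : ℕ) : ℂ) * (0 : ℂ) ^ (6 - 1)) 0 := hasDerivAt_pow 6 0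
    have e3 := (e0.const_mul t).const_add 1
    have e4 := ((e3.pow 3).add ((e1.const_mul A).mul e3)).add (e2.const_mul B)
    refine HasDerivAt.congr_deriv (f := u2 A B t) e4 ?_
    norm_num
  have h1 := HasDerivAt.cpow_const (c := (((2 : ℕ) : ℂ)⁻¹)) h0 (by simp [u2])
  refine HasDerivAt.congr_deriv (f := r2 A B t) h1 ?_
  simp

lemma hasDerivAt_br (A B t ε : ℂ) (p : Fin 4 × Fin 3) :
    HasDerivAt (fun s => br A B t ε s p) (tv ε p) 0 := by
  have h1 : HasDerivAt (fun s : ℂ => s) 1 0 := hasDerivAt_id 0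
  have h3 : HasDerivAt (fun s : ℂ => s ^ 3) 0 0 := by
    have := hasDerivAt_pow 3 (0:ℂ)
    refine HasDerivAt.congr_deriv this ?_
    norm_num
  have h5 : HasDerivAt (fun s : ℂ => ε * (s + t * s ^ 3)) ε 0 := by
    refine HasDerivAt.congr_deriv ((h1.add (h3.const_mul t)).const_mul ε) ?_
    norm_num
  have h6 : HasDerivAt (fun s : ℂ => ε * s ^ 3) 0 0 := by
    refine HasDerivAt.congr_deriv (h3.const_mul ε) ?_
    norm_num
  obtain ⟨i, k⟩ := p
  fin_cases i <;> fin_cases k <;> simp only [br, tv]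
  · exact h1
  · exact hasDerivAt_r1 A B
  · exact h3
  · exact h1.neg
  · exact hasDerivAt_r1 A B
  · exact h3.neg.congr_deriv (by simp)
  · exact h5
  · exact hasDerivAt_r2 A B t
  · exact h6
  · exact h5.neg
  · exact hasDerivAt_r2 A B t
  · exact h6.neg.congr_deriv (by simp)

/-- chain rule for polynomials -/
lemma hasDerivAt_eval {σ : Type} [Fintype σ] [DecidableEq σ] (F : MvPolynomial σ ℂ) (p : ℂ → σ → ℂ)
    (p' : σ → ℂ) (s₀ : ℂ) (h : ∀ q, HasDerivAt (fun s => p s q) (p' q) s₀) :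
    HasDerivAt (fun s => eval (p s) F) (∑ q, eval (p s₀) (pderiv q F) * p' q) s₀ := by
  induction F using MvPolynomial.induction_on with
  | C r =>
    simp only [eval_C, pderiv_C, map_zero, zero_mul, Finset.sum_const_zero]
    exact hasDerivAt_const _ _
  | add F G hF hG =>
    simp only [map_add, add_mul, Finset.sum_add_distrib]
    exact hF.add hG
  | mul_X F i hF =>
    have := hF.mul (h i)
    simp only [map_mul, eval_X]
    refine HasDerivAt.congr_deriv this ?_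
    have e : ∀ q, eval (p s₀) (pderiv q (F * X i)) * p' q
        = eval (p s₀) (pderiv q F) * p' q * p s₀ i + eval (p s₀) F * (if i = q then p' q else 0) := by
      intro q
      rw [pderiv_mul, map_add, map_mul, map_mul, eval_X, pderiv_X]
      by_cases hq : i = q
      · subst hq
        simp
        ring
      · simp [hq, Pi.single_apply, Ne.symm hq]
        ring
    simp_rw [e]
    rw [Finset.sum_add_distrib, ← Finset.sum_mul, ← Finset.mul_sum]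
    simp

/-- a polynomial vanishing on the affine part vanishes at infinity -/
lemma vanish_oo {t : ℂ} {F : MvPolynomial (Fin 4 × Fin 3) ℂ} {d : Fin 4 → ℕ}
    (hF : MultiHom F d) (h : ∀ x y w : ℂ, y ^ 2 = x ^ 3 + A * x + B →
      w ^ 2 = (x + t) ^ 3 + A * (x + t) + B → eval (gen t x y w) F = 0) :
    ev (oo A B) F = 0 := by
  have h1 := (hasDerivAt_eval F (br A B t 1) (tv 1) 0 (hasDerivAt_br A B t 1)).continuousAt
  have h2 : Filter.Tendsto (fun s => eval (br A B t 1 s) F) (nhdsWithin 0 {0}ᶜ)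
      (nhds (eval (br A B t 1 0) F)) := h1.tendsto.mono_left nhdsWithin_le_nhds
  have h3 : Filter.Tendsto (fun s => eval (br A B t 1 s) F) (nhdsWithin 0 {0}ᶜ) (nhds 0) := by
    refine Filter.Tendsto.congr' ?_ tendsto_const_nhds
    filter_upwards [self_mem_nhdsWithin] with s hs
    exact (br_vanish hF h (by norm_num) hs).symm
  have h4 := tendsto_nhds_unique h2 h3
  rw [br_zero] at h4
  exact h4

/-- the tangent vectors of the branches -/
lemma tangent {t : ℂ} {F : MvPolynomial (Fin 4 × Fin 3) ℂ} {d : Fin 4 → ℕ}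
    (hF : MultiHom F d) (h : ∀ x y w : ℂ, y ^ 2 = x ^ 3 + A * x + B →
      w ^ 2 = (x + t) ^ 3 + A * (x + t) + B → eval (gen t x y w) F = 0) {ε : ℂ} (hε : ε ^ 2 = 1) :
    ∑ p, ev (oo A B) (pderiv p F) * tv ε p = 0 := by
  have h1 := hasDerivAt_eval F (br A B t ε) (tv ε) 0 (hasDerivAt_br A B t ε)
  have h2 : HasDerivAt (fun s => eval (br A B t ε s) F) 0 0 := by
    have h3 : (fun s => eval (br A B t ε s) F) = fun _ => 0 := by
      funext s
      by_cases hs : s = 0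
      · subst hs
        rw [br_zero]
        exact vanish_oo hF h
      · exact br_vanish hF h hε hs
    rw [h3]
    exact hasDerivAt_const _ _
  have h4 := h1.unique h2
  rw [br_zero] at h4
  exact h4

end Pool.Agent.Helper1_QD
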