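import Mathlib

set_option autoImplicit false

namespace Pool.Agent.Helper1_QD

open Polynomial

/-- `f = X³ + A X + B` -/
noncomputable def fp (A B : ℂ) : ℂ[X] := X ^ 3 + C A * X + C B

/-- `g(X) = f(X + t)` -/
noncomputable def gp (A B t : ℂ) : ℂ[X] := (fp A B).comp (X + C t)

lemma fp_eval (A B x : ℂ) : (fp A B).eval x = x ^ 3 + A * x + B := by
  simp [fp]

lemma gp_eval (A B t x : ℂ) : (gp A B t).eval x = (x + t) ^ 3 + A * (x + t) + B := by
  simp [gp, fp]

lemma fp_natDegree (A B : ℂ) : (fp A B).natDegree = 3 := by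
  unfold fp
  compute_degree!

lemma gp_natDegree (A B t : ℂ) : (gp A B t).natDegree = 3 := by
  unfold gp
  rw [natDegree_comp, fp_natDegree, natDegree_X_add_C]

lemma fp_ne_zero (A B : ℂ) : fp A B ≠ 0 := by
  intro h
  have := fp_natDegree A B
  rw [h] at this
  simp at this

lemma gp_ne_zero (A B t : ℂ) : gp A B t ≠ 0 := by
  intro h
  have := gp_natDegree A B t
  rw [h] at this
  simp at this

/-- parity of degrees -/
lemma sq_eq_odd {p a b : ℂ[X]} (hp : p.natDegree = 3) (h : a ^ 2 = b ^ 2 * p) : a = 0 ∧ b = 0 := by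
  have hp0 : p ≠ 0 := by
    intro h0; rw [h0] at hp; simp at hp
  by_cases hb : b = 0
  · rw [hb] at h
    simp at h
    exact ⟨h, hb⟩
  · exfalso
    have h1 : (a ^ 2).natDegree = (b ^ 2 * p).natDegree := by rw [h]
    rw [natDegree_pow, natDegree_mul (pow_ne_zero 2 hb) hp0, natDegree_pow, hp] at h1
    omega

/-- There is a root of `f` that is not a root of `g`. -/
lemma exists_root (A B t : ℂ) (ht : t ≠ 0) : ∃ r, (fp A B).eval r = 0 ∧ (gp A B t).eval r ≠ 0 := by
  obtain ⟨r₀, hr₀⟩ := IsAlgClosed.exists_root (fp A B) (by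
    rw [degree_eq_natDegree (fp_ne_zero A B), fp_natDegree]; norm_num)
  by_contra hcon
  push Not at hcon
  have h1 : ∀ k : ℕ, (fp A B).eval (r₀ + k * t) = 0 := by
    intro k
    induction k with
    | zero => simpa using hr₀
    | succ k ih =>
      have h2 := hcon _ ih
      rw [gp_eval] at h2
      rw [fp_eval]
      push_cast
      rw [show r₀ + (k + 1) * t = r₀ + k * t + t by ring]
      exact h2
  apply fp_ne_zero A B
  apply eq_zero_of_infinite_isRoot
  apply Set.infinite_of_injective_forall_mem (f := fun k : ℕ => r₀ + k * t)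
  · intro a b hab
    simp only [add_right_inj] at hab
    have := mul_right_cancel₀ ht hab
    exact_mod_cast this
  · intro k
    exact h1 k

lemma fp_simple (A B : ℂ) (hΔ : 4 * A ^ 3 + 27 * B ^ 2 ≠ 0) {r : ℂ} (hr : (fp A B).eval r = 0) :
    (fp A B).rootMultiplicity r = 1 := by
  have h0 := fp_ne_zero A B
  have h1 : 0 < (fp A B).rootMultiplicity r := (rootMultiplicity_pos h0).mpr hr
  have h2 : ¬ 1 < (fp A B).rootMultiplicity r := by
    rw [one_lt_rootMultiplicity_iff_isRoot h0]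
    rintro ⟨-, h3⟩
    apply hΔ
    have h4 : 3 * r ^ 2 + A = 0 := by
      have : (derivative (fp A B)).eval r = 3 * r ^ 2 + A := by
        simp [fp, derivative_pow]
      rw [IsRoot, this] at h3
      exact h3
    rw [fp_eval] at hr
    have hA : A = -3 * r ^ 2 := by linear_combination h4
    have hB : B = 2 * r ^ 3 := by rw [hA] at hr; linear_combination hr
    rw [hA, hB]; ring
  omega

/-- `f g` is not a square up to squares. -/
lemma sq_eq_fg (A B t : ℂ) (hΔ : 4 * A ^ 3 + 27 * B ^ 2 ≠ 0) (ht : t ≠ 0) {a d : ℂ[X]}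
    (h : a ^ 2 = fp A B * gp A B t * d ^ 2) : a = 0 ∧ d = 0 := by
  obtain ⟨r, hr1, hr2⟩ := exists_root A B t ht
  by_cases hd : d = 0
  · rw [hd] at h
    simp at h
    exact ⟨h, hd⟩
  · exfalso
    have hf0 := fp_ne_zero A B
    have hg0 := gp_ne_zero A B t
    have ha : a ≠ 0 := by
      rintro rfl
      have : fp A B * gp A B t * d ^ 2 = 0 := by rw [← h]; simp
      simp [hf0, hg0, hd] at this
    have h1 : (a ^ 2).rootMultiplicity r = (fp A B * gp A B t * d ^ 2).rootMultiplicity r := by rw [h]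
    have hfg : fp A B * gp A B t ≠ 0 := mul_ne_zero hf0 hg0
    have hd2 : d ^ 2 ≠ 0 := pow_ne_zero 2 hd
    have e1 : (a ^ 2).rootMultiplicity r = 2 * a.rootMultiplicity r := by
      rw [pow_two, rootMultiplicity_mul (mul_ne_zero ha ha)]; ring
    have e2 : (d ^ 2).rootMultiplicity r = 2 * d.rootMultiplicity r := by
      rw [pow_two, rootMultiplicity_mul (mul_ne_zero hd hd)]; ring
    have e3 : (gp A B t).rootMultiplicity r = 0 := by
      rw [rootMultiplicity_eq_zero_iff]
      intro h3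
      exact absurd h3 hr2
    rw [e1, rootMultiplicity_mul (mul_ne_zero hfg hd2), rootMultiplicity_mul hfg, e2, e3,
      fp_simple A B hΔ hr1] at h1
    omega

/-- The norm of `a + b y + c w + d y w` vanishes only if all coefficients vanish. -/
lemma norm_zero (A B t : ℂ) (hΔ : 4 * A ^ 3 + 27 * B ^ 2 ≠ 0) (ht : t ≠ 0) {a b c d : ℂ[X]}
    (h : (a ^ 2 + b ^ 2 * fp A B - gp A B t * (c ^ 2 + d ^ 2 * fp A B)) ^ 2
      - (2 * a * b - 2 * c * d * gp A B t) ^ 2 * fp A B = 0) :
    a = 0 ∧ b = 0 ∧ c = 0 ∧ d = 0 := by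
  set f := fp A B with hf
  set g := gp A B t with hg
  obtain ⟨h1, h2⟩ := sq_eq_odd (fp_natDegree A B) (sub_eq_zero.mp h)
  have h3 : (a ^ 2 - b ^ 2 * f) ^ 2 = (g * (c ^ 2 - d ^ 2 * f)) ^ 2 := by
    have e1 : a ^ 2 + b ^ 2 * f = g * (c ^ 2 + d ^ 2 * f) := by linear_combination h1
    have e2 : a * b = c * d * g := by
      have : (2:ℂ[X]) * (a * b - c * d * g) = 0 := by linear_combination h2
      have h20 : (2:ℂ[X]) ≠ 0 := two_ne_zero
      rcases mul_eq_zero.mp this with h' | h'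
      · exact absurd h' h20
      · linear_combination h'
    calc (a ^ 2 - b ^ 2 * f) ^ 2 = (a ^ 2 + b ^ 2 * f) ^ 2 - 4 * (a * b) ^ 2 * f := by ring
      _ = (g * (c ^ 2 + d ^ 2 * f)) ^ 2 - 4 * (c * d * g) ^ 2 * f := by rw [e1, e2]
      _ = (g * (c ^ 2 - d ^ 2 * f)) ^ 2 := by ring
  have h20 : (2:ℂ[X]) ≠ 0 := two_ne_zero
  rcases sq_eq_sq_iff_eq_or_eq_neg.mp h3 with h4 | h4
  · -- a² = g c², b² f = g d² f
    have e1 : a ^ 2 = c ^ 2 * g := by
      have : (2:ℂ[X]) * (a ^ 2 - c ^ 2 * g) = 0 := by linear_combination h1 + h4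
      rcases mul_eq_zero.mp this with h' | h'
      · exact absurd h' h20
      · linear_combination h'
    have e2 : b ^ 2 = d ^ 2 * g := by
      have : (2 * f) * (b ^ 2 - d ^ 2 * g) = 0 := by linear_combination h1 - h4
      rcases mul_eq_zero.mp this with h' | h'
      · exact absurd h' (mul_ne_zero h20 (fp_ne_zero A B))
      · linear_combination h'
    obtain ⟨ha, hc⟩ := sq_eq_odd (gp_natDegree A B t) e1
    obtain ⟨hb, hd⟩ := sq_eq_odd (gp_natDegree A B t) e2
    exact ⟨ha, hb, hc, hd⟩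
  · have e1 : a ^ 2 = f * g * d ^ 2 := by
      have : (2:ℂ[X]) * (a ^ 2 - f * g * d ^ 2) = 0 := by linear_combination h1 + h4
      rcases mul_eq_zero.mp this with h' | h'
      · exact absurd h' h20
      · linear_combination h'
    have e2 : (b * f) ^ 2 = f * g * c ^ 2 := by
      have : (2:ℂ[X]) * (b ^ 2 * f - g * c ^ 2) = 0 := by linear_combination h1 - h4
      rcases mul_eq_zero.mp this with h' | h'
      · exact absurd h' h20
      · linear_combination f * h'
    obtain ⟨ha, hd⟩ := sq_eq_fg A B t hΔ ht e1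
    obtain ⟨hb, hc⟩ := sq_eq_fg A B t hΔ ht e2
    rcases mul_eq_zero.mp hb with hb' | hb'
    · exact ⟨ha, hb', hc, hd⟩
    · exact absurd hb' (fp_ne_zero A B)

end Pool.Agent.Helper1_QD
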