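import Pool.Agent.Helper1_QD.Defs
import Pool.Agent.Helper1_QD.PolyLemmas

set_option autoImplicit false
set_option linter.unusedSimpArgs false
set_option linter.unusedVariables false

namespace Pool.Agent.Helper1_QD

open MvPolynomial

variable {A B : ℂ}

/-! ### multihomogeneous polynomials -/

lemma mh_X {n : ℕ} (i : Fin n) (c : Fin 3) :
    MultiHom (X (i, c) : MvPolynomial (Fin n × Fin 3) ℂ) (Pi.single i 1) :=
  isWeightedHomogeneous_X ℂ _ (i, c)

lemma MultiHom.mul' {n : ℕ} {F G : MvPolynomial (Fin n × Fin 3) ℂ} {d e f : Fin n → ℕ}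
    (hF : MultiHom F d) (hG : MultiHom G e) (h : d + e = f) : MultiHom (F * G) f := by
  subst h; exact IsWeightedHomogeneous.mul hF hG

lemma MultiHom.add' {n : ℕ} {F G : MvPolynomial (Fin n × Fin 3) ℂ} {d : Fin n → ℕ}
    (hF : MultiHom F d) (hG : MultiHom G d) : MultiHom (F + G) d :=
  IsWeightedHomogeneous.add hF hG

lemma MultiHom.smul' {n : ℕ} {F : MvPolynomial (Fin n × Fin 3) ℂ} {d : Fin n → ℕ} (c : ℂ)
    (hF : MultiHom F d) : MultiHom (C c * F) d :=
  MultiHom.mul' (isWeightedHomogeneous_C _ c) hF (zero_add d)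

lemma MultiHom.sub' {n : ℕ} {F G : MvPolynomial (Fin n × Fin 3) ℂ} {d : Fin n → ℕ}
    (hF : MultiHom F d) (hG : MultiHom G d) : MultiHom (F - G) d := by
  have h := MultiHom.add' hF (MultiHom.smul' (-1) hG)
  have e : F + C (-1) * G = F - G := by simp [sub_eq_add_neg]
  rwa [e] at h

lemma MultiHom.pow' {n : ℕ} {F : MvPolynomial (Fin n × Fin 3) ℂ} {d : Fin n → ℕ}
    (hF : MultiHom F d) (k : ℕ) : MultiHom (F ^ k) (k • d) :=
  IsWeightedHomogeneous.pow hF k

/-- scaling the homogeneous coordinates -/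
lemma MultiHom.eval_scale {n : ℕ} {F : MvPolynomial (Fin n × Fin 3) ℂ} {d : Fin n → ℕ}
    (hF : MultiHom F d) (l : Fin n → ℂ) (x : Fin n × Fin 3 → ℂ) :
    eval (fun p => l p.1 * x p) F = (∏ i, l i ^ d i) * eval x F := by
  rw [eval_eq, eval_eq, Finset.mul_sum]
  apply Finset.sum_congr rfl
  intro m hm
  have hw := hF (mem_support_iff.mp hm)
  have h1 : ∏ i, l i ^ d i = ∏ p ∈ m.support, l p.1 ^ m p := by
    have h2 : ∀ i, d i = ∑ p ∈ m.support, if p.1 = i then m p else 0 := by
      intro i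
      rw [← hw, Finsupp.weight_apply, Finsupp.sum, Finset.sum_apply]
      apply Finset.sum_congr rfl
      intro p _
      by_cases hp : p.1 = i
      · subst hp; simp
      · simp [hp, Pi.single_apply, Ne.symm hp]
    simp_rw [h2]
    simp_rw [← Finset.prod_pow_eq_pow_sum]
    rw [Finset.prod_comm]
    apply Finset.prod_congr rfl
    intro p _
    rw [Finset.prod_eq_single p.1]
    · simp
    · intro i _ hi
      simp [Ne.symm hi]
    · simp
  rw [h1]
  have h3 : ∏ p ∈ m.support, (l p.1 * x p) ^ m p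
      = (∏ p ∈ m.support, l p.1 ^ m p) * ∏ p ∈ m.support, x p ^ m p := by
    rw [← Finset.prod_mul_distrib]
    apply Finset.prod_congr rfl
    intro p _
    rw [mul_pow]
  rw [h3]
  ring

/-! ### points of the curve -/

lemma nonsing (hΔ : 4 * A ^ 3 + 27 * B ^ 2 ≠ 0) {x y : ℂ} (h : y ^ 2 = x ^ 3 + A * x + B) :
    (EC A B).toAffine.Nonsingular x y := by
  have hD : (EC A B).Δ ≠ 0 := by
    have : (EC A B).Δ = -16 * (4 * A ^ 3 + 27 * B ^ 2) := by
      simp [EC, WeierstrassCurve.Δ, WeierstrassCurve.b₂, WeierstrassCurve.b₄, WeierstrassCurve.b₆,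
        WeierstrassCurve.b₈]
      ring
    rw [this]
    exact mul_ne_zero (by norm_num) hΔ
  rw [← WeierstrassCurve.Affine.equation_iff_nonsingular_of_Δ_ne_zero hD,
    WeierstrassCurve.Affine.equation_iff]
  simp [EC]
  linear_combination h

lemma eqn {x y : ℂ} (h : (EC A B).toAffine.Nonsingular x y) : y ^ 2 = x ^ 3 + A * x + B := by
  have := h.1
  rw [WeierstrassCurve.Affine.equation_iff] at this
  simp [EC] at this
  linear_combination this

/-- The relation `x(Q) = x(P) + t` (with `∞ = ∞ + t`). -/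
def XRel (t : ℂ) : Pt A B → Pt A B → Prop
  | .zero, .zero => True
  | .some x _ _, .some x' _ _ => x' = x + t
  | .zero, .some _ _ _ => False
  | .some _ _ _, .zero => False

/-- The curve `{(P, -P, Q, -Q) : x(Q) = x(P) + t}` in `E⁴`. -/
def St (A B t : ℂ) : Set (Fin 4 → Pt A B) :=
  {v | v 1 = -v 0 ∧ v 3 = -v 2 ∧ XRel t (v 0) (v 2)}

lemma hc_neg_some {x y : ℂ} (h : (EC A B).toAffine.Nonsingular x y) :
    hc (-(WeierstrassCurve.Affine.Point.some x y h)) = ![x, -y, 1] := by
  rw [WeierstrassCurve.Affine.Point.neg_some]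
  simp [hc, WeierstrassCurve.Affine.negY, EC]

lemma neg_zero' : -(WeierstrassCurve.Affine.Point.zero : Pt A B) = .zero := rfl

/-- the coordinates of the generic point with parameters `(x, y, w)` -/
def gen (t x y w : ℂ) (p : Fin 4 × Fin 3) : ℂ :=
  (![![x, y, 1], ![x, -y, 1], ![x + t, w, 1], ![x + t, -w, 1]] : Fin 4 → Fin 3 → ℂ) p.1 p.2

/-- the point at infinity of the curve -/
def oo (A B : ℂ) : Fin 4 → Pt A B := fun _ => .zero

lemma St_cases {t : ℂ} {v : Fin 4 → Pt A B} (hv : v ∈ St A B t) :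
    v = oo A B ∨ ∃ x y w : ℂ, y ^ 2 = x ^ 3 + A * x + B ∧
      w ^ 2 = (x + t) ^ 3 + A * (x + t) + B ∧ (fun p : Fin 4 × Fin 3 => hc (v p.1) p.2) = gen t x y w := by
  obtain ⟨h1, h2, h3⟩ := hv
  rcases hv0 : v 0 with _ | ⟨x, y, hxy⟩
  · rcases hv2 : v 2 with _ | ⟨x', w, hw⟩
    · left
      funext i
      fin_cases i
      · exact hv0
      · show v 1 = _
        rw [h1, hv0]; rfl
      · exact hv2
      · show v 3 = _
        rw [h2, hv2]; rfl
    · rw [hv0, hv2] at h3
      exact h3.elim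
  · rcases hv2 : v 2 with _ | ⟨x', w, hw⟩
    · rw [hv0, hv2] at h3
      exact h3.elim
    · rw [hv0, hv2] at h3
      have hx' : x' = x + t := h3
      subst hx'
      right
      refine ⟨x, y, w, eqn hxy, eqn hw, ?_⟩
      funext p
      obtain ⟨i, c⟩ := p
      fin_cases i
      · show hc (v 0) c = _
        rw [hv0]; rfl
      · show hc (v 1) c = _
        rw [h1, hv0, hc_neg_some]; rfl
      · show hc (v 2) c = _
        rw [hv2]; rfl
      · show hc (v 3) c = _
        rw [h2, hv2, hc_neg_some]; rfl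

lemma oo_mem (t : ℂ) : oo A B ∈ St A B t := ⟨rfl, rfl, trivial⟩

/-- the point of the curve with parameters `(x, y, w)` -/
lemma exists_mem (hΔ : 4 * A ^ 3 + 27 * B ^ 2 ≠ 0) {t x y w : ℂ} (h1 : y ^ 2 = x ^ 3 + A * x + B)
    (h2 : w ^ 2 = (x + t) ^ 3 + A * (x + t) + B) :
    ∃ v ∈ St A B t, (fun p : Fin 4 × Fin 3 => hc (v p.1) p.2) = gen t x y w ∧ v ≠ oo A B := by
  set P : Pt A B := .some x y (nonsing hΔ h1) with hP
  set Q : Pt A B := .some (x + t) w (nonsing hΔ h2) with hQ
  refine ⟨![P, -P, Q, -Q], ⟨rfl, rfl, rfl⟩, ?_, ?_⟩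
  · funext p
    obtain ⟨i, c⟩ := p
    fin_cases i
    · rfl
    · show hc (-P) c = _
      rw [hP, hc_neg_some]; rfl
    · rfl
    · show hc (-Q) c = _
      rw [hQ, hc_neg_some]; rfl
  · intro h
    have := congrFun h 0
    simp [oo, hP] at this

/-- points are determined by their homogeneous coordinates -/
lemma hc_inj {P Q : Pt A B} (h : hc P = hc Q) : P = Q := by
  rcases P with _ | ⟨x, y, hxy⟩ <;> rcases Q with _ | ⟨x', y', hxy'⟩
  · rfl
  · exfalso
    have := congrFun h 2
    simp [hc] at this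
  · exfalso
    have := congrFun h 2
    simp [hc] at this
  · have e1 := congrFun h 0
    have e2 := congrFun h 1
    simp [hc] at e1 e2
    subst e1; subst e2; rfl

/-! ### functions on the affine part -/

/-- Every polynomial restricted to the affine part is `a(x) + b(x) y + c(x) w + d(x) y w`. -/
lemma normal_form (A B t : ℂ) (F : MvPolynomial (Fin 4 × Fin 3) ℂ) :
    ∃ a b c d : Polynomial ℂ, ∀ x y w : ℂ, y ^ 2 = x ^ 3 + A * x + B →
      w ^ 2 = (x + t) ^ 3 + A * (x + t) + B →
      eval (gen t x y w) F = a.eval x + b.eval x * y + c.eval x * w + d.eval x * (y * w) := by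
  induction F using MvPolynomial.induction_on with
  | C r => exact ⟨Polynomial.C r, 0, 0, 0, by intros; simp⟩
  | add F G hF hG =>
    obtain ⟨a, b, c, d, h⟩ := hF
    obtain ⟨a', b', c', d', h'⟩ := hG
    refine ⟨a + a', b + b', c + c', d + d', ?_⟩
    intro x y w h1 h2
    rw [map_add, h x y w h1 h2, h' x y w h1 h2]
    simp only [Polynomial.eval_add]
    ring
  | mul_X F p hF =>
    obtain ⟨a, b, c, d, h⟩ := hF
    -- multiplication by x, y, w, constants
    have mulx : ∃ a' b' c' d' : Polynomial ℂ, ∀ x y w : ℂ, y ^ 2 = x ^ 3 + A * x + B →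
        w ^ 2 = (x + t) ^ 3 + A * (x + t) + B → eval (gen t x y w) F * x
          = a'.eval x + b'.eval x * y + c'.eval x * w + d'.eval x * (y * w) := by
      refine ⟨a * Polynomial.X, b * Polynomial.X, c * Polynomial.X, d * Polynomial.X, ?_⟩
      intro x y w h1 h2
      rw [h x y w h1 h2]
      simp only [Polynomial.eval_mul, Polynomial.eval_X]
      ring
    have mulxt : ∃ a' b' c' d' : Polynomial ℂ, ∀ x y w : ℂ, y ^ 2 = x ^ 3 + A * x + B →
        w ^ 2 = (x + t) ^ 3 + A * (x + t) + B → eval (gen t x y w) F * (x + t)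
          = a'.eval x + b'.eval x * y + c'.eval x * w + d'.eval x * (y * w) := by
      refine ⟨a * (Polynomial.X + Polynomial.C t), b * (Polynomial.X + Polynomial.C t),
        c * (Polynomial.X + Polynomial.C t), d * (Polynomial.X + Polynomial.C t), ?_⟩
      intro x y w h1 h2
      rw [h x y w h1 h2]
      simp only [Polynomial.eval_mul, Polynomial.eval_X, Polynomial.eval_add, Polynomial.eval_C]
      ring
    have muly : ∀ s : ℂ, ∃ a' b' c' d' : Polynomial ℂ, ∀ x y w : ℂ, y ^ 2 = x ^ 3 + A * x + B →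
        w ^ 2 = (x + t) ^ 3 + A * (x + t) + B → eval (gen t x y w) F * (s * y)
          = a'.eval x + b'.eval x * y + c'.eval x * w + d'.eval x * (y * w) := by
      intro s
      refine ⟨Polynomial.C s * b * fp A B, Polynomial.C s * a, Polynomial.C s * d * fp A B,
        Polynomial.C s * c, ?_⟩
      intro x y w h1 h2
      rw [h x y w h1 h2]
      simp only [Polynomial.eval_mul, Polynomial.eval_X, Polynomial.eval_add, Polynomial.eval_C,
        fp_eval]
      linear_combination (s * b.eval x + s * d.eval x * w) * h1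
    have mulw : ∀ s : ℂ, ∃ a' b' c' d' : Polynomial ℂ, ∀ x y w : ℂ, y ^ 2 = x ^ 3 + A * x + B →
        w ^ 2 = (x + t) ^ 3 + A * (x + t) + B → eval (gen t x y w) F * (s * w)
          = a'.eval x + b'.eval x * y + c'.eval x * w + d'.eval x * (y * w) := by
      intro s
      refine ⟨Polynomial.C s * c * gp A B t, Polynomial.C s * d * gp A B t, Polynomial.C s * a,
        Polynomial.C s * b, ?_⟩
      intro x y w h1 h2
      rw [h x y w h1 h2]
      simp only [Polynomial.eval_mul, Polynomial.eval_X, Polynomial.eval_add, Polynomial.eval_C,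
        gp_eval]
      linear_combination (s * c.eval x + s * d.eval x * y) * h2
    have mul1 : ∃ a' b' c' d' : Polynomial ℂ, ∀ x y w : ℂ, y ^ 2 = x ^ 3 + A * x + B →
        w ^ 2 = (x + t) ^ 3 + A * (x + t) + B → eval (gen t x y w) F * 1
          = a'.eval x + b'.eval x * y + c'.eval x * w + d'.eval x * (y * w) :=
      ⟨a, b, c, d, fun x y w h1 h2 => by rw [h x y w h1 h2]; ring⟩
    simp only [map_mul, eval_X]
    obtain ⟨i, k⟩ := p
    fin_cases i <;> fin_cases k <;> simp only [gen] <;>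
      first
      | exact mulx
      | exact mul1
      | exact mulxt
      | (have := muly 1; simpa using this)
      | (have := muly (-1); simpa using this)
      | (have := mulw 1; simpa using this)
      | (have := mulw (-1); simpa using this)

lemma finite_sq (c : ℂ) : {z : ℂ | z ^ 2 = c}.Finite := by
  by_cases h : ∃ z₀ : ℂ, z₀ ^ 2 = c
  · obtain ⟨z₀, hz₀⟩ := h
    apply (Set.toFinite ({z₀, -z₀} : Set ℂ)).subset
    intro z hz
    have : z ^ 2 = z₀ ^ 2 := by rw [hz₀]; exact hz
    rcases sq_eq_sq_iff_eq_or_eq_neg.mp this with h | h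
    · left; exact h
    · right; exact h
  · apply (Set.finite_empty).subset
    intro z hz
    exact h ⟨z, hz⟩

/-- Dichotomy on the affine part. -/
lemma dichotomy (hΔ : 4 * A ^ 3 + 27 * B ^ 2 ≠ 0) {t : ℂ} (ht : t ≠ 0)
    (F : MvPolynomial (Fin 4 × Fin 3) ℂ) :
    (∀ x y w : ℂ, y ^ 2 = x ^ 3 + A * x + B → w ^ 2 = (x + t) ^ 3 + A * (x + t) + B →
      eval (gen t x y w) F = 0) ∨ {v ∈ St A B t | ev v F = 0}.Finite := by
  obtain ⟨a, b, c, d, h⟩ := normal_form A B t F
  set N : Polynomial ℂ := (a ^ 2 + b ^ 2 * fp A B - gp A B t * (c ^ 2 + d ^ 2 * fp A B)) ^ 2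
      - (2 * a * b - 2 * c * d * gp A B t) ^ 2 * fp A B with hN
  by_cases hN0 : N = 0
  · left
    obtain ⟨ha, hb, hc', hd⟩ := norm_zero A B t hΔ ht hN0
    intro x y w h1 h2
    rw [h x y w h1 h2, ha, hb, hc', hd]
    simp
  · right
    -- finitely many x
    have hfin : (N.rootSet ℂ).Finite := Polynomial.rootSet_finite N ℂ
    have hfin2 : (⋃ x ∈ N.rootSet ℂ, ({x} : Set ℂ) ×ˢ ({y : ℂ | y ^ 2 = x ^ 3 + A * x + B} ×ˢ
        {w : ℂ | w ^ 2 = (x + t) ^ 3 + A * (x + t) + B})).Finite :=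
      hfin.biUnion fun x _ => (Set.finite_singleton x).prod ((finite_sq _).prod (finite_sq _))
    have hcover : {v ∈ St A B t | ev v F = 0} ⊆ {oo A B} ∪
        {v | ∃ z ∈ (⋃ x ∈ N.rootSet ℂ, ({x} : Set ℂ) ×ˢ ({y : ℂ | y ^ 2 = x ^ 3 + A * x + B} ×ˢ
        {w : ℂ | w ^ 2 = (x + t) ^ 3 + A * (x + t) + B})),
          (fun p : Fin 4 × Fin 3 => hc (v p.1) p.2) = gen t z.1 z.2.1 z.2.2} := by
      rintro v ⟨hv, hF⟩
      rcases St_cases hv with h1 | ⟨x, y, w, hy, hw, hg⟩
      · left; exact h1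
      · right
        refine ⟨(x, y, w), ?_, hg⟩
        simp only [Set.mem_iUnion, Set.mem_prod, Set.mem_singleton_iff, Set.mem_ofPred_eq]
        refine ⟨x, ?_, rfl, hy, hw⟩
        rw [Polynomial.mem_rootSet]
        refine ⟨hN0, ?_⟩
        unfold ev at hF
        rw [hg, h x y w hy hw] at hF
        have hfx := fp_eval A B x
        have hgx := gp_eval A B t x
        simp only [hN, Polynomial.coe_aeval_eq_eval, Polynomial.eval_sub, Polynomial.eval_pow,
          Polynomial.eval_add, Polynomial.eval_mul, hfx, hgx, Polynomial.eval_ofNat]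
        rw [← hy, ← hw]
        set a' := a.eval x
        set b' := b.eval x
        set c' := c.eval x
        set d' := d.eval x
        have : (a' ^ 2 + b' ^ 2 * y ^ 2 - w ^ 2 * (c' ^ 2 + d' ^ 2 * y ^ 2)) ^ 2
            - (2 * a' * b' - 2 * c' * d' * w ^ 2) ^ 2 * y ^ 2
            = (a' + b' * y + c' * w + d' * (y * w)) * (a' + b' * y - c' * w - d' * (y * w))
              * ((a' - b' * y + c' * w - d' * (y * w)) * (a' - b' * y - c' * w + d' * (y * w))) := by
          ring
        rw [this, hF]; ring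
    refine Set.Finite.subset ((Set.finite_singleton _).union ?_) hcover
    -- the second set is finite: injection into the finite set
    have : {v : Fin 4 → Pt A B | ∃ z ∈ (⋃ x ∈ N.rootSet ℂ, ({x} : Set ℂ) ×ˢ ({y : ℂ | y ^ 2 = x ^ 3 + A * x + B} ×ˢ
        {w : ℂ | w ^ 2 = (x + t) ^ 3 + A * (x + t) + B})),
          (fun p : Fin 4 × Fin 3 => hc (v p.1) p.2) = gen t z.1 z.2.1 z.2.2}
        = ⋃ z ∈ (⋃ x ∈ N.rootSet ℂ, ({x} : Set ℂ) ×ˢ ({y : ℂ | y ^ 2 = x ^ 3 + A * x + B} ×ˢ
        {w : ℂ | w ^ 2 = (x + t) ^ 3 + A * (x + t) + B})), {v : Fin 4 → Pt A B |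
          (fun p : Fin 4 × Fin 3 => hc (v p.1) p.2) = gen t z.1 z.2.1 z.2.2} := by
      ext v; simp
    rw [this]
    apply hfin2.biUnion
    intro z _
    apply Set.Subsingleton.finite
    intro v hv v' hv'
    have e : (fun p : Fin 4 × Fin 3 => hc (v p.1) p.2) = (fun p : Fin 4 × Fin 3 => hc (v' p.1) p.2) :=
      hv.trans hv'.symm
    funext i
    apply hc_inj
    funext k
    exact congrFun e (i, k)

/-- The curve is infinite. -/
lemma St_infinite (hΔ : 4 * A ^ 3 + 27 * B ^ 2 ≠ 0) (t : ℂ) : (St A B t).Infinite := by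
  have h : ∀ x : ℂ, ∃ v ∈ St A B t, hc (v 0) 0 = x ∧ hc (v 0) 2 = 1 := by
    intro x
    obtain ⟨y, hy⟩ := IsAlgClosed.exists_pow_nat_eq (x ^ 3 + A * x + B) (n := 2) (by norm_num)
    obtain ⟨w, hw⟩ := IsAlgClosed.exists_pow_nat_eq ((x + t) ^ 3 + A * (x + t) + B) (n := 2)
      (by norm_num)
    obtain ⟨v, hv, hg, -⟩ := exists_mem hΔ hy hw
    refine ⟨v, hv, ?_, ?_⟩
    · have := congrFun hg (0, 0)
      simpa [gen] using this
    · have := congrFun hg (0, 2)
      simpa [gen] using this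
  choose v hv hx _ using h
  apply Set.infinite_of_injective_forall_mem (f := v)
  · intro x x' hxx
    rw [← hx x, ← hx x', hxx]
  · exact hv

end Pool.Agent.Helper1_QD
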