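import Mathlib

/-!
Classical (point-set) language for curves in the `n`-fold power of a plane cubic elliptic curve
`E : y² = x³ + A x + B` over `ℂ`, for the line bundle `L = 𝒪_{ℙ²}(1)|_E = 𝒪_E(3e)`.
-/

set_option autoImplicit false

namespace Pool.Agent.Helper1_QD

open MvPolynomial

/-- The Weierstrass curve `y² = x³ + A x + B` over `ℂ`. -/
def EC (A B : ℂ) : WeierstrassCurve ℂ := ⟨0, 0, 0, A, B⟩

/-- The nonsingular points of the projective cubic `y² = x³ + A x + B`, that is, all points of the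
elliptic curve `E` when `4 A³ + 27 B² ≠ 0`: the point at infinity `e` (constructor `zero`) and the
affine points `(x, y)` (constructor `some`).  It carries Mathlib's group law with identity `e`. -/
abbrev Pt (A B : ℂ) : Type := (EC A B).toAffine.Point

variable {A B : ℂ}

/-- Homogeneous coordinates in `ℙ²` of a point of `E`: `e = [0 : 1 : 0]`, `(x, y) = [x : y : 1]`. -/
def hc : Pt A B → Fin 3 → ℂ
  | .zero => ![0, 1, 0]
  | .some x y _ => ![x, y, 1]

variable {n : ℕ}

/-- Polynomials in the `3n` homogeneous coordinates of `(ℙ²)ⁿ` which are multihomogeneous of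
multidegree `d` (the variable `(i, c)` is the `c`-th coordinate on the `i`-th factor). -/
def MultiHom (F : MvPolynomial (Fin n × Fin 3) ℂ) (d : Fin n → ℕ) : Prop :=
  IsWeightedHomogeneous (fun p : Fin n × Fin 3 => (Pi.single p.1 1 : Fin n → ℕ)) F d

/-- Value of a polynomial at (the chosen homogeneous coordinates of) a point of `Eⁿ`. -/
noncomputable def ev (v : Fin n → Pt A B) (F : MvPolynomial (Fin n × Fin 3) ℂ) : ℂ :=
  eval (fun p => hc (v p.1) p.2) F

/-- Zariski closed subsets of `Eⁿ ⊆ (ℙ²)ⁿ`. -/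
def ZClosed (S : Set (Fin n → Pt A B)) : Prop :=
  ∃ T : Set (MvPolynomial (Fin n × Fin 3) ℂ), (∀ F ∈ T, ∃ d, MultiHom F d) ∧
    S = {v | ∀ F ∈ T, ev v F = 0}

/-- `S ⊆ Eⁿ` is an irreducible (reduced) curve: an infinite Zariski closed subset all of whose
proper Zariski closed subsets are finite. -/
def IsIrredCurve (S : Set (Fin n → Pt A B)) : Prop :=
  ZClosed S ∧ S.Infinite ∧ ∀ Z : Set (Fin n → Pt A B), ZClosed Z → S ⊆ Z ∨ (S ∩ Z).Finite

/-- The line bundle `⨂ᵢ pᵢ^* 𝒪(aᵢ)` restricted to `S` is trivial, where `𝒪(1) = 𝒪_{ℙ²}(1)|_E` and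
`a : Fin n → ℤ`: it has a nowhere vanishing section `τ` over `S`.  A section is a function which near
every point `v` of `S` is a quotient `F / G` of multihomogeneous polynomials with
`multideg F - multideg G = a` and `G(v) ≠ 0` (values are taken at the coordinates `hc`). -/
def IsTrivialOn (S : Set (Fin n → Pt A B)) (a : Fin n → ℤ) : Prop :=
  ∃ τ : (Fin n → Pt A B) → ℂ, (∀ v ∈ S, τ v ≠ 0) ∧
    ∀ v ∈ S, ∃ (F G : MvPolynomial (Fin n × Fin 3) ℂ) (d e : Fin n → ℕ),
      MultiHom F d ∧ MultiHom G e ∧ (∀ i, (d i : ℤ) - (e i : ℤ) = a i) ∧ ev v G ≠ 0 ∧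
      ∀ u ∈ S, ev u G ≠ 0 → τ u = ev u F / ev u G

/-- `S` is a quasi-diagonal over `(E, L)` with `L = 𝒪_{ℙ²}(1)|_E = 𝒪_E(3e)`: an irreducible curve in
`Eⁿ` on which every `pᵢ^* L ⊗ pⱼ^* L⁻¹` is torsion. -/
def IsQuasiDiagonal (S : Set (Fin n → Pt A B)) : Prop :=
  IsIrredCurve S ∧ ∀ i j : Fin n, ∃ m : ℕ, 0 < m ∧
    IsTrivialOn S (fun k => (m : ℤ) * ((Pi.single i 1 : Fin n → ℤ) k - (Pi.single j 1 : Fin n → ℤ) k))

open Classical in
/-- The summation map is constant on `S`. -/
def IsRestricted (S : Set (Fin n → Pt A B)) : Prop :=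
  ∃ c : Pt A B, ∀ v ∈ S, ∑ i, v i = c

/-- `w` is a (lifted) Zariski tangent vector of `S` at `o`: the differential at `o` of every
multihomogeneous polynomial vanishing on `S` kills `w`.  The Zariski tangent space of `S` at `o` is
the space of these `w` modulo the span of the `n` vectors of homogeneous coordinates of the `oᵢ`. -/
def TangentVec (S : Set (Fin n → Pt A B)) (o : Fin n → Pt A B) (w : Fin n × Fin 3 → ℂ) : Prop :=
  ∀ (F : MvPolynomial (Fin n × Fin 3) ℂ) (d : Fin n → ℕ), MultiHom F d → (∀ v ∈ S, ev v F = 0) →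
    ∑ p, ev o (pderiv p F) * w p = 0

/-- `o` is a singular point of the curve `S`: it lies on `S` and the Zariski tangent space of `S`
at `o` has dimension at least `2`. -/
def IsSingularAt (S : Set (Fin n → Pt A B)) (o : Fin n → Pt A B) : Prop :=
  o ∈ S ∧ ∃ w w' : Fin n × Fin 3 → ℂ, TangentVec S o w ∧ TangentVec S o w' ∧
    ∀ (a b : ℂ) (c : Fin n → ℂ), (∀ p, a * w p + b * w' p = c p.1 * hc (o p.1) p.2) →
      a = 0 ∧ b = 0

end Pool.Agent.Helper1_QD
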