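import Pool.Agent.Helper1_QD.Branch

set_option autoImplicit false
set_option linter.unusedSimpArgs false
set_option linter.unusedVariables false

namespace Pool.Agent.Helper1_QD

open MvPolynomial

variable {A B : ℂ}

/-- evaluation at a point of the curve -/
lemma ev_cases {t : ℂ} {v : Fin 4 → Pt A B} (hv : v ∈ St A B t) :
    (∀ F, ev v F = ev (oo A B) F) ∨ ∃ x y w : ℂ, y ^ 2 = x ^ 3 + A * x + B ∧
      w ^ 2 = (x + t) ^ 3 + A * (x + t) + B ∧ ∀ F, ev v F = eval (gen t x y w) F := by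
  rcases St_cases hv with h | ⟨x, y, w, h1, h2, h3⟩
  · left; intro F; rw [h]
  · right
    exact ⟨x, y, w, h1, h2, fun F => by unfold ev; rw [h3]⟩

/-- vanishing on the affine part implies vanishing on the whole curve -/
lemma vanish_all {t : ℂ} {F : MvPolynomial (Fin 4 × Fin 3) ℂ} {d : Fin 4 → ℕ}
    (hF : MultiHom F d) (h : ∀ x y w : ℂ, y ^ 2 = x ^ 3 + A * x + B →
      w ^ 2 = (x + t) ^ 3 + A * (x + t) + B → eval (gen t x y w) F = 0)
    {v : Fin 4 → Pt A B} (hv : v ∈ St A B t) : ev v F = 0 := by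
  rcases ev_cases hv with h1 | ⟨x, y, w, h1, h2, h3⟩
  · rw [h1]; exact vanish_oo hF h
  · rw [h3]; exact h x y w h1 h2

/-- conversely -/
lemma vanish_aff (hΔ : 4 * A ^ 3 + 27 * B ^ 2 ≠ 0) {t : ℂ} {F : MvPolynomial (Fin 4 × Fin 3) ℂ}
    (h : ∀ v ∈ St A B t, ev v F = 0) : ∀ x y w : ℂ, y ^ 2 = x ^ 3 + A * x + B →
      w ^ 2 = (x + t) ^ 3 + A * (x + t) + B → eval (gen t x y w) F = 0 := by
  intro x y w h1 h2
  obtain ⟨v, hv, hg, -⟩ := exists_mem hΔ h1 h2
  have := h v hv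
  unfold ev at this
  rwa [hg] at this

/-! ### the equations of the curve -/

/-- coordinates -/
noncomputable abbrev x' (i : Fin 4) : MvPolynomial (Fin 4 × Fin 3) ℂ := X (i, 0)
noncomputable abbrev y' (i : Fin 4) : MvPolynomial (Fin 4 × Fin 3) ℂ := X (i, 1)
noncomputable abbrev z' (i : Fin 4) : MvPolynomial (Fin 4 × Fin 3) ℂ := X (i, 2)

lemma mhx (i : Fin 4) : MultiHom (x' i) (Pi.single i 1) := mh_X i 0
lemma mhy (i : Fin 4) : MultiHom (y' i) (Pi.single i 1) := mh_X i 1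
lemma mhz (i : Fin 4) : MultiHom (z' i) (Pi.single i 1) := mh_X i 2

noncomputable def HH (A B : ℂ) (i : Fin 4) : MvPolynomial (Fin 4 × Fin 3) ℂ :=
  y' i ^ 2 - C A * (x' i * z' i) - C B * z' i ^ 2

lemma mhHH (A B : ℂ) (i : Fin 4) : MultiHom (HH A B i) (2 • Pi.single i 1) := by
  unfold HH
  refine MultiHom.sub' (MultiHom.sub' ((mhy i).pow' 2) (MultiHom.smul' A ?_))
    (MultiHom.smul' B ((mhz i).pow' 2))
  exact (mhx i).mul' (mhz i) (two_smul ℕ _).symm

/-- `x_i z_j - x_j z_i` -/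
noncomputable def e1 (i j : Fin 4) : MvPolynomial (Fin 4 × Fin 3) ℂ := x' i * z' j - x' j * z' i
/-- `y_i z_j + y_j z_i` -/
noncomputable def e2 (i j : Fin 4) : MvPolynomial (Fin 4 × Fin 3) ℂ := y' i * z' j + y' j * z' i
noncomputable def e3 (t : ℂ) : MvPolynomial (Fin 4 × Fin 3) ℂ :=
  x' 2 * z' 0 - x' 0 * z' 2 - C t * (z' 0 * z' 2)
noncomputable def e4 (A B t : ℂ) : MvPolynomial (Fin 4 × Fin 3) ℂ :=
  x' 2 * x' 0 ^ 2 - (HH A B 0 + C t * x' 0 ^ 2) * z' 2
noncomputable def e5 (A B t : ℂ) : MvPolynomial (Fin 4 × Fin 3) ℂ :=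
  HH A B 2 * z' 0 - x' 0 * x' 2 ^ 2 - C t * (z' 0 * x' 2 ^ 2)

lemma mhe1 (i j : Fin 4) : MultiHom (e1 i j) (Pi.single i 1 + Pi.single j 1) :=
  MultiHom.sub' ((mhx i).mul' (mhz j) rfl) ((mhx j).mul' (mhz i) (add_comm _ _))

lemma mhe2 (i j : Fin 4) : MultiHom (e2 i j) (Pi.single i 1 + Pi.single j 1) :=
  MultiHom.add' ((mhy i).mul' (mhz j) rfl) ((mhy j).mul' (mhz i) (add_comm _ _))

lemma mhe3 (t : ℂ) : MultiHom (e3 t) (Pi.single 0 1 + Pi.single 2 1) :=
  MultiHom.sub' (MultiHom.sub' ((mhx 2).mul' (mhz 0) (add_comm _ _)) ((mhx 0).mul' (mhz 2) rfl))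
    (MultiHom.smul' t ((mhz 0).mul' (mhz 2) rfl))

lemma mhe4 (A B t : ℂ) : MultiHom (e4 A B t) (2 • Pi.single 0 1 + Pi.single 2 1) :=
  MultiHom.sub' ((mhx 2).mul' ((mhx 0).pow' 2) (add_comm _ _))
    ((MultiHom.add' (mhHH A B 0) (MultiHom.smul' t ((mhx 0).pow' 2))).mul' (mhz 2) rfl)

lemma mhe5 (A B t : ℂ) : MultiHom (e5 A B t) (2 • Pi.single 2 1 + Pi.single 0 1) :=
  MultiHom.sub' (MultiHom.sub' ((mhHH A B 2).mul' (mhz 0) rfl)
    ((mhx 0).mul' ((mhx 2).pow' 2) (add_comm _ _)))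
    (MultiHom.smul' t ((mhz 0).mul' ((mhx 2).pow' 2) (add_comm _ _)))

noncomputable def TT (A B t : ℂ) : Set (MvPolynomial (Fin 4 × Fin 3) ℂ) :=
  {e1 0 1, e2 0 1, e1 2 3, e2 2 3, e3 t, e4 A B t, e5 A B t}

lemma neg_of_eqs {P Q : Pt A B} (h1 : hc P 0 * hc Q 2 - hc Q 0 * hc P 2 = 0)
    (h2 : hc P 1 * hc Q 2 + hc Q 1 * hc P 2 = 0) : Q = -P := by
  rcases P with _ | ⟨x, y, h⟩
  · rcases Q with _ | ⟨x', y', h'⟩
    · rfl
    · exfalso
      simp [hc] at h2
  · rcases Q with _ | ⟨x', y', h'⟩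
    · exfalso
      simp [hc] at h2
    · apply hc_inj
      rw [hc_neg_some]
      simp [hc] at h1 h2 ⊢
      exact ⟨(sub_eq_zero.mp h1).symm, by linear_combination h2⟩

lemma St_closed (hΔ : 4 * A ^ 3 + 27 * B ^ 2 ≠ 0) (t : ℂ) : ZClosed (St A B t) := by
  refine ⟨TT A B t, ?_, ?_⟩
  · intro F hF
    rcases hF with rfl | rfl | rfl | rfl | rfl | rfl | rfl
    · exact ⟨_, mhe1 _ _⟩
    · exact ⟨_, mhe2 _ _⟩
    · exact ⟨_, mhe1 _ _⟩
    · exact ⟨_, mhe2 _ _⟩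
    · exact ⟨_, mhe3 _⟩
    · exact ⟨_, mhe4 _ _ _⟩
    · exact ⟨_, mhe5 _ _ _⟩
  · ext v
    constructor
    · intro hv F hF
      rcases ev_cases hv with h | ⟨x, y, w, h1, h2, h⟩
      · rw [h]
        rcases hF with rfl | rfl | rfl | rfl | rfl | rfl | rfl <;>
          simp [ev, e1, e2, e3, e4, e5, HH, oo, hc]
      · rw [h]
        rcases hF with rfl | rfl | rfl | rfl | rfl | rfl | rfl <;>
          simp [e1, e2, e3, e4, e5, HH, gen]
        · linear_combination (-1 : ℂ) * h1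
        · linear_combination h2
    · intro h
      have a1 := h (e1 0 1) (by simp [TT])
      have a2 := h (e2 0 1) (by simp [TT])
      have a3 := h (e1 2 3) (by simp [TT])
      have a4 := h (e2 2 3) (by simp [TT])
      have a5 := h (e3 t) (by simp [TT])
      have a6 := h (e4 A B t) (by simp [TT])
      have a7 := h (e5 A B t) (by simp [TT])
      simp only [ev, e1, e2, e3, e4, e5, HH, map_add, map_sub, map_mul, map_pow, eval_X, eval_C]
        at a1 a2 a3 a4 a5 a6 a7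
      refine ⟨neg_of_eqs a1 a2, neg_of_eqs a3 a4, ?_⟩
      rcases hv0 : v 0 with _ | ⟨x, y, hxy⟩
      · rcases hv2 : v 2 with _ | ⟨x', w, hw⟩
        · trivial
        · exfalso
          rw [hv0, hv2] at a6
          simp [hc] at a6
      · rcases hv2 : v 2 with _ | ⟨x', w, hw⟩
        · exfalso
          rw [hv0, hv2] at a7
          simp [hc] at a7
        · rw [hv0, hv2] at a5
          simp [hc] at a5
          show x' = x + t
          linear_combination a5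

lemma St_irred (hΔ : 4 * A ^ 3 + 27 * B ^ 2 ≠ 0) {t : ℂ} (ht : t ≠ 0) :
    IsIrredCurve (St A B t) := by
  refine ⟨St_closed hΔ t, St_infinite hΔ t, ?_⟩
  rintro Z ⟨T, hT, rfl⟩
  by_cases h : ∀ F ∈ T, ∀ v ∈ St A B t, ev v F = 0
  · left
    intro v hv F hF
    exact h F hF v hv
  · right
    push Not at h
    obtain ⟨F, hF, v, hv, hne⟩ := h
    obtain ⟨d, hd⟩ := hT F hF
    rcases dichotomy hΔ ht F with h1 | h1
    · exact absurd (vanish_all hd h1 hv) hne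
    · apply h1.subset
      rintro u ⟨hu1, hu2⟩
      exact ⟨hu1, hu2 F hF⟩

/-! ### torsion -/

/-- The function used for the ratios near infinity. -/
lemma triv_aux {t : ℂ} (i j : Fin 4) (F G : MvPolynomial (Fin 4 × Fin 3) ℂ) (d e : Fin 4 → ℕ)
    (hF : MultiHom F d) (hG : MultiHom G e)
    (hde : ∀ k, (d k : ℤ) - (e k : ℤ)
      = ((2 : ℕ) : ℤ) * ((Pi.single i 1 : Fin 4 → ℤ) k - (Pi.single j 1 : Fin 4 → ℤ) k))
    (hG0 : ev (oo A B) G = 1) (hF0 : ev (oo A B) F = 1)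
    (haff : ∀ x y w : ℂ, y ^ 2 = x ^ 3 + A * x + B → w ^ 2 = (x + t) ^ 3 + A * (x + t) + B →
      eval (gen t x y w) F = eval (gen t x y w) G) :
    IsTrivialOn (St A B t) (fun k => ((2 : ℕ) : ℤ) *
      ((Pi.single i 1 : Fin 4 → ℤ) k - (Pi.single j 1 : Fin 4 → ℤ) k)) := by
  refine ⟨fun _ => 1, fun _ _ => one_ne_zero, ?_⟩
  intro v hv
  rcases ev_cases hv with h | ⟨x, y, w, h1, h2, h⟩
  · refine ⟨F, G, d, e, hF, hG, hde, ?_, ?_⟩
    · rw [h, hG0]; exact one_ne_zero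
    · intro u hu hne
      rcases ev_cases hu with h' | ⟨x, y, w, h1, h2, h'⟩
      · rw [h' F, h' G, hF0, hG0]; simp
      · rw [h' G] at hne
        rw [h' F, h' G, haff x y w h1 h2, div_self hne]
  · refine ⟨z' i ^ 2, z' j ^ 2, 2 • Pi.single i 1, 2 • Pi.single j 1, (mhz i).pow' 2,
      (mhz j).pow' 2, ?_, ?_, ?_⟩
    · intro k
      by_cases hi : k = i <;> by_cases hj : k = j <;> simp [Pi.single_apply, hi, hj] <;> split_ifs <;> simp
    · rw [h]
      fin_cases j <;> simp [gen]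
    · intro u hu hne
      rcases ev_cases hu with h' | ⟨x, y, w, h1, h2, h'⟩
      · exfalso
        apply hne
        rw [h']
        simp [ev, oo, hc]
      · rw [h', h']
        have : ∀ l : Fin 4, eval (gen t x y w) (z' l ^ 2) = 1 := by
          intro l; fin_cases l <;> simp [gen]
        rw [this, this]; simp

lemma St_torsion (t : ℂ) (i j : Fin 4) :
    IsTrivialOn (St A B t) (fun k => ((2 : ℕ) : ℤ) *
      ((Pi.single i 1 : Fin 4 → ℤ) k - (Pi.single j 1 : Fin 4 → ℤ) k)) := by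
  -- `K i = H_i + t x_i²`
  have mhK : ∀ i, MultiHom (HH A B i + C t * x' i ^ 2) (2 • Pi.single i 1) := fun i =>
    MultiHom.add' (mhHH A B i) (MultiHom.smul' t ((mhx i).pow' 2))
  have case1 : ∀ i j : Fin 4, (∀ x y w : ℂ, y ^ 2 = x ^ 3 + A * x + B →
      w ^ 2 = (x + t) ^ 3 + A * (x + t) + B →
      eval (gen t x y w) (HH A B i) = eval (gen t x y w) (HH A B j)) →
      IsTrivialOn (St A B t) (fun k => ((2 : ℕ) : ℤ) *
      ((Pi.single i 1 : Fin 4 → ℤ) k - (Pi.single j 1 : Fin 4 → ℤ) k)) := by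
    intro i j h
    refine triv_aux i j (HH A B i) (HH A B j) _ _ (mhHH A B i) (mhHH A B j) ?_ ?_ ?_ h
    · intro k
      by_cases hi : k = i <;> by_cases hj : k = j <;> simp [Pi.single_apply, hi, hj] <;> split_ifs <;> simp
    · simp [ev, HH, oo, hc]
    · simp [ev, HH, oo, hc]
  have case2 : ∀ i j : Fin 4, (∀ x y w : ℂ, y ^ 2 = x ^ 3 + A * x + B →
      w ^ 2 = (x + t) ^ 3 + A * (x + t) + B →
      eval (gen t x y w) ((HH A B i + C t * x' i ^ 2) ^ 3)
        = eval (gen t x y w) (HH A B i ^ 2 * HH A B j)) →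
      IsTrivialOn (St A B t) (fun k => ((2 : ℕ) : ℤ) *
      ((Pi.single i 1 : Fin 4 → ℤ) k - (Pi.single j 1 : Fin 4 → ℤ) k)) := by
    intro i j h
    refine triv_aux i j ((HH A B i + C t * x' i ^ 2) ^ 3) (HH A B i ^ 2 * HH A B j) _ _
      ((mhK i).pow' 3) (((mhHH A B i).pow' 2).mul' (mhHH A B j) rfl) ?_ ?_ ?_ h
    · intro k
      by_cases hi : k = i <;> by_cases hj : k = j <;> simp [Pi.single_apply, hi, hj] <;> split_ifs <;> simp
    · simp [ev, HH, oo, hc]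
    · simp [ev, HH, oo, hc]
  have case3 : ∀ i j : Fin 4, (∀ x y w : ℂ, y ^ 2 = x ^ 3 + A * x + B →
      w ^ 2 = (x + t) ^ 3 + A * (x + t) + B →
      eval (gen t x y w) ((HH A B j + C t * x' j ^ 2) ^ 3)
        = eval (gen t x y w) (HH A B j ^ 2 * HH A B i)) →
      IsTrivialOn (St A B t) (fun k => ((2 : ℕ) : ℤ) *
      ((Pi.single i 1 : Fin 4 → ℤ) k - (Pi.single j 1 : Fin 4 → ℤ) k)) := by
    intro i j h
    refine triv_aux i j (HH A B j ^ 2 * HH A B i) ((HH A B j + C t * x' j ^ 2) ^ 3) _ _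
      (((mhHH A B j).pow' 2).mul' (mhHH A B i) rfl) ((mhK j).pow' 3) ?_ ?_ ?_
      (fun x y w h1 h2 => (h x y w h1 h2).symm)
    · intro k
      by_cases hi : k = i <;> by_cases hj : k = j <;> simp [Pi.single_apply, hi, hj] <;> split_ifs <;> simp
    · simp [ev, HH, oo, hc]
    · simp [ev, HH, oo, hc]
  have key01 : ∀ x y w : ℂ, y ^ 2 = x ^ 3 + A * x + B →
      w ^ 2 = (x + t) ^ 3 + A * (x + t) + B →
      (eval (gen t x y w) (HH A B 0) = x ^ 3 ∧ eval (gen t x y w) (HH A B 1) = x ^ 3 ∧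
      eval (gen t x y w) (HH A B 2) = (x + t) ^ 3 ∧ eval (gen t x y w) (HH A B 3) = (x + t) ^ 3) := by
    intro x y w h1 h2
    refine ⟨?_, ?_, ?_, ?_⟩ <;> simp [HH, gen]
    · linear_combination h1
    · linear_combination h1
    · linear_combination h2
    · linear_combination h2
  have keyx : ∀ x y w : ℂ, eval (gen t x y w) (x' 0) = x ∧ eval (gen t x y w) (x' 1) = x ∧
      eval (gen t x y w) (x' 2) = x + t ∧ eval (gen t x y w) (x' 3) = x + t := by
    intro x y w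
    refine ⟨?_, ?_, ?_, ?_⟩ <;> simp [gen]
  fin_cases i <;> fin_cases j <;>
    first
    | (apply case1; intro x y w h1 h2; obtain ⟨k0, k1, k2, k3⟩ := key01 x y w h1 h2
       simp only [Fin.zero_eta, Fin.mk_one, Fin.reduceFinMk, k0, k1, k2, k3]; done)
    | (apply case2; intro x y w h1 h2; obtain ⟨k0, k1, k2, k3⟩ := key01 x y w h1 h2
       obtain ⟨l0, l1, l2, l3⟩ := keyx x y w
       simp only [Fin.zero_eta, Fin.mk_one, Fin.reduceFinMk, map_add, map_mul, map_pow, eval_C,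
         k0, k1, k2, k3, l0, l1, l2, l3]; ring1)
    | (apply case3; intro x y w h1 h2; obtain ⟨k0, k1, k2, k3⟩ := key01 x y w h1 h2
       obtain ⟨l0, l1, l2, l3⟩ := keyx x y w
       simp only [Fin.zero_eta, Fin.mk_one, Fin.reduceFinMk, map_add, map_mul, map_pow, eval_C,
         k0, k1, k2, k3, l0, l1, l2, l3]; ring1)

lemma St_restricted (t : ℂ) : IsRestricted (St A B t) := by
  classical
  refine ⟨0, ?_⟩
  rintro v ⟨h1, h2, -⟩
  rw [Fin.sum_univ_four, h1, h2, add_neg_cancel, zero_add, add_neg_cancel]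

lemma St_singular (hΔ : 4 * A ^ 3 + 27 * B ^ 2 ≠ 0) (t : ℂ) :
    IsSingularAt (St A B t) (oo A B) := by
  refine ⟨oo_mem t, tv 1, tv (-1), ?_, ?_, ?_⟩
  · intro F d hF h
    exact tangent hF (vanish_aff hΔ h) (by norm_num)
  · intro F d hF h
    exact tangent hF (vanish_aff hΔ h) (by norm_num)
  · intro a b c h
    have h1 := h (0, 0)
    have h2 := h (2, 0)
    simp [tv, hc, oo] at h1 h2
    constructor
    · linear_combination (1 / 2 : ℂ) * h1 + (1 / 2 : ℂ) * h2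
    · linear_combination (1 / 2 : ℂ) * h1 - (1 / 2 : ℂ) * h2

end Pool.Agent.Helper1_QD
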